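import Pool.Agent.H654R5.PT.Stm

set_option autoImplicit false

/-! Task CAP: no item fails. -/

namespace Pool.Agent.H654R5.PT.CAP

open Pool.Agent.NPC Finset Classical

theorem mem_cands (e : List Bool) (c : ℕ × List Bool) : c ∈ cands e ↔
    c.1 ∈ lvls e.length ∧ c.2 ∈ addr (gI e.length) (c.1 - aa (gI e.length)) (item e) := by
  unfold cands
  rw [List.mem_flatMap]
  constructor
  · rintro ⟨N, hN, hc⟩
    rw [List.mem_map] at hc
    obtain ⟨z, hz, rfl⟩ := hc
    exact ⟨hN, hz⟩
  · rintro ⟨h1, h2⟩
    exact ⟨c.1, h1, List.mem_map.mpr ⟨c.2, h2, rfl⟩⟩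

theorem mem_lvls (m N : ℕ) : N ∈ lvls m ↔
    N < m + aa (gI m) + gI m + 5 ∧ N % gI m = gI m / 2 ∧ aa (gI m) < N := by
  unfold lvls
  simp

section

variable (a t : ℕ → Option (List Bool)) (n : ℕ)

/-- the items up to stage `n` -/
noncomputable def EE : Finset (List Bool) := ((List.range n).filterMap t).toFinset

theorem mem_EE (e : List Bool) : e ∈ EE t n ↔ ∃ k < n, t k = some e := by
  unfold EE
  rw [List.mem_toFinset, List.mem_filterMap]
  simp

/-- the items which need a cell of level at most `N` -/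
noncomputable def Req (N : ℕ) : Finset (List Bool) :=
  (EE t n).filter (fun e => N ∈ lvls e.length ∧ ∀ c ∈ cands e, N < c.1 → Blk a t n c)

/-- the items which fail at level `N` -/
noncomputable def Fail (N : ℕ) : Finset (List Bool) :=
  (Req a t n N).filter (fun e => ∀ c ∈ cands e, c.1 = N → Blk a t n c)

/-- the blocked addresses of level `N` -/
noncomputable def Blo (N : ℕ) : Finset (List Bool) :=
  (strs (N - aa (gN N))).filter (fun c => Blk a t n (N, c))

/-- the dead addresses of level `N` -/
noncomputable def Dead (N : ℕ) : Finset (List Bool) :=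
  (strs (N - aa (gN N))).filter (fun c => deadB a n (N, c) = true)

/-- abstract form of the count of the blocked addresses -/
theorem card_Blo_abs {A B : Type} [DecidableEq A] [DecidableEq B] (Z : Finset A) (R : Finset B)
    (bl dd : A → Prop) [DecidablePred bl] [DecidablePred dd] (rel : A → B → Prop)
    (h1 : ∀ c ∈ Z, bl c → ¬ dd c → ∃ e ∈ R, rel c e)
    (h2 : ∀ e c c', rel c e → rel c' e → ¬ dd c → ¬ dd c' → c = c') :
    (Z.filter bl).card ≤ (Z.filter dd).card + R.card := by
  have hsub : Z.filter bl ⊆ Z.filter dd ∪ (Z.filter (fun c => bl c ∧ ¬ dd c)) := by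
    intro c hc
    rw [mem_filter] at hc
    rw [mem_union, mem_filter, mem_filter]
    by_cases h : dd c
    · exact Or.inl ⟨hc.1, h⟩
    · exact Or.inr ⟨hc.1, hc.2, h⟩
  have hinj : (Z.filter (fun c => bl c ∧ ¬ dd c)).card ≤ R.card := by
    have hex : ∀ c ∈ Z.filter (fun c => bl c ∧ ¬ dd c), ∃ e, e ∈ R ∧ rel c e := by
      intro c hc
      rw [mem_filter] at hc
      exact h1 c hc.1 hc.2.1 hc.2.2
    rcases (Z.filter (fun c => bl c ∧ ¬ dd c)).eq_empty_or_nonempty with he | ⟨c0, hc0⟩
    · rw [he]
      exact Nat.zero_le _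
    have : Nonempty B := ⟨(hex c0 hc0).choose⟩
    choose! f hf using hex
    apply Finset.card_le_card_of_injOn f
    · intro c hc
      exact (hf c hc).1
    · intro c hc c' hc' hcc
      have e1 := (hf c hc).2
      have e2 := (hf c' hc').2
      rw [← hcc] at e2
      have n1 : ¬ dd c := (mem_filter.mp (Finset.mem_coe.mp hc)).2.2
      have n2 : ¬ dd c' := (mem_filter.mp (Finset.mem_coe.mp hc')).2.2
      exact h2 _ _ _ e1 e2 n1 n2
  exact ((card_le_card hsub).trans (card_union_le _ _)).trans (Nat.add_le_add_left hinj _)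

theorem card_Blo (hI : S_INV) (N : ℕ) :
    (Blo a t n N).card ≤ (Dead a n N).card + (Req a t n N).card := by
  obtain ⟨_, _, _, h4, h5⟩ := hI a t
  unfold Blo Dead
  generalize strs (N - aa (gN N)) = Z
  refine card_Blo_abs Z (Req a t n N) (fun c => Blk a t n (N, c))
    (fun c => deadB a n (N, c) = true) (fun c e => ((N, c), e) ∈ run a t n) ?_ ?_
  · intro c _ hb hnd
    rcases hb with h | ⟨p, hp, hpc⟩
    · exact absurd h hnd
    · have hr : ((N, c), p.2) ∈ run a t n := by
        rw [← hpc]
        exact hp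
      refine ⟨p.2, ?_, hr⟩
      obtain ⟨g1, g2, g3⟩ := h4 n _ hr
      rw [mem_cands] at g1
      unfold Req
      rw [mem_filter, mem_EE]
      exact ⟨g2, g1.1, g3⟩
  · intro e c c' hr hr' hd hd'
    obtain ⟨p, hp⟩ := h5 n e
    have e1 : (N, c) = p := by
      by_contra hne
      have h := hp ((N, c), e) hr rfl hne
      exact hd h
    have e2 : (N, c') = p := by
      by_contra hne
      have h := hp ((N, c'), e) hr' rfl hne
      exact hd' h
    have := e1.trans e2.symm
    exact (Prod.ext_iff.mp this).2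

theorem card_Fail (hS : S_STR) (hC : S_CLS) (hI : S_INV) (hD : S_DED) (hP : S_DSP) (ha : Few a)
    (N : ℕ) (hN : aa (gN N) < N) (hR : 8 * (Req a t n N).card ≤ 2 ^ (N - aa (gN N))) :
    (Fail a t n N).card < 2 ^ (N - aa (gN N) - gN N - 4) := by
  obtain ⟨c1, c2, _, _, c5, c6⟩ := hC
  by_contra hcon
  rw [not_lt] at hcon
  have hne : (Fail a t n N).Nonempty := by
    rw [← card_pos]
    exact lt_of_lt_of_le (by positivity) hcon
  have hFail : ∀ e ∈ Fail a t n N, N ∈ lvls e.length ∧ gI e.length = gN N ∧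
      ∀ c ∈ cands e, c.1 = N → Blk a t n c := by
    intro e he
    unfold Fail Req at he
    rw [mem_filter, mem_filter] at he
    exact ⟨he.1.2.1, ((c2 _ _).mp he.1.2.1).1.symm, he.2⟩
  obtain ⟨e0, he0⟩ := hne
  obtain ⟨f1, f2, _⟩ := hFail e0 he0
  have hg1 : 1 ≤ gN N := Nat.one_le_two_pow
  have hν : N - aa (gN N) ≤ 2 ^ gN N + gN N + 3 := by
    have h3 := ((c2 _ _).mp f1).2.2
    have h4 := (c1 e0.length).1
    rw [f2] at h3 h4
    omega
  obtain ⟨p1, p2⟩ := hP (gN N) (N - aa (gN N)) hg1 hν
  have hX := p2 ((Fail a t n N).image item) (by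
      intro x hx
      rw [mem_image] at hx
      obtain ⟨e, he, rfl⟩ := hx
      obtain ⟨_, f2, _⟩ := hFail e he
      rw [hS.2.2.2.1, (c5 e).1, f2]) (by
      rw [card_image_of_injOn]
      · exact hcon
      · intro e he e' he' hee
        obtain ⟨_, f2, _⟩ := hFail e he
        obtain ⟨_, f2', _⟩ := hFail e' he'
        exact c6 e e' (f2.trans f2'.symm) hee)
  have hsub : ((Fail a t n N).image item).biUnion
      (fun x => (addr (gN N) (N - aa (gN N)) x).toFinset) ⊆ Blo a t n N := by
    intro z hz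
    rw [mem_biUnion] at hz
    obtain ⟨x, hx, hz⟩ := hz
    rw [mem_image] at hx
    obtain ⟨e, he, rfl⟩ := hx
    rw [List.mem_toFinset] at hz
    obtain ⟨f1, f2, f3⟩ := hFail e he
    unfold Blo
    rw [mem_filter]
    refine ⟨(hS.2.2.2.1 _ _).mpr (p1 _ _ hz), ?_⟩
    apply f3 _ _ rfl
    rw [mem_cands]
    refine ⟨f1, ?_⟩
    simp only
    rw [f2]
    exact hz
  have h1 := card_le_card hsub
  have h2 := card_Blo a t n hI N
  have h3 : 64 * (Dead a n N).card ≤ 2 ^ (N - aa (gN N)) := hD a ha n N hN
  generalize 2 ^ (N - aa (gN N)) = M at *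
  omega

theorem card_short (hS : S_STR) (k : ℕ) (P : Finset (List Bool)) (hP : ∀ e ∈ P, e.length < k) :
    P.card < 2 ^ k := by
  have hsub : P ⊆ (Finset.range k).biUnion strs := by
    intro e he
    rw [mem_biUnion]
    exact ⟨e.length, mem_range.mpr (hP e he), (hS.2.2.2.1 _ _).mpr rfl⟩
  have h1 : ((Finset.range k).biUnion strs).card ≤ ∑ i ∈ range k, 2 ^ i := by
    refine card_biUnion_le.trans (le_of_eq ?_)
    exact sum_congr rfl fun i _ => hS.2.2.2.2 i
  have h2 : ∑ i ∈ range k, 2 ^ i < 2 ^ k := Nat.geomSum_lt (le_refl 2) (fun i hi => mem_range.mp hi)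
  exact lt_of_le_of_lt ((card_le_card hsub).trans h1) h2

theorem card_Req (hS : S_STR) (hC : S_CLS) (hI : S_INV) (hD : S_DED) (hP : S_DSP) (ha : Few a)
    (B : ℕ) (hB : ∀ e ∈ EE t n, ∀ N ∈ lvls e.length, N < B) (k : ℕ) :
    ∀ N, aa (gN N) < N → B - N ≤ k → 8 * (Req a t n N).card ≤ 2 ^ (N - aa (gN N)) := by
  induction k with
  | zero =>
    intro N _ hk
    have : Req a t n N = ∅ := by
      rw [eq_empty_iff_forall_notMem]
      intro e he
      unfold Req at he
      rw [mem_filter] at he
      have := hB e he.1 N he.2.1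
      omega
    rw [this]
    simp
  | succ k ih =>
    intro N hN hk
    have hC' := hC
    obtain ⟨c1, c2, c3, c4, c5, c6⟩ := hC'
    set g := gN N with hg
    set ν := N - aa g with hν
    set P1 := (Req a t n N).filter (fun e => N + g ∈ lvls e.length) with hP1
    set P2 := (Req a t n N).filter (fun e => ¬ N + g ∈ lvls e.length) with hP2
    have hsum : (Req a t n N).card = P1.card + P2.card :=
      (card_filter_add_card_filter_not _).symm
    have hReq : ∀ e ∈ Req a t n N, e ∈ EE t n ∧ N ∈ lvls e.length ∧ gI e.length = g ∧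
        ∀ c ∈ cands e, N < c.1 → Blk a t n c := by
      intro e he
      unfold Req at he
      rw [mem_filter] at he
      exact ⟨he.1, he.2.1, ((c2 _ _).mp he.2.1).1.symm, he.2.2⟩
    have hg1 : 1 ≤ g := Nat.one_le_two_pow
    have hA : 16 * P1.card ≤ 2 ^ ν := by
      rcases P1.eq_empty_or_nonempty with h0 | ⟨e0, he0⟩
      · rw [h0]; simp
      · have he0' : e0 ∈ Req a t n N ∧ N + g ∈ lvls e0.length := by
          rw [hP1, mem_filter] at he0; exact he0
        obtain ⟨_, _, q3, _⟩ := hReq e0 he0'.1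
        have hgN : gN (N + g) = g := ((c2 _ _).mp he0'.2).1.trans q3
        have hlt : aa (gN (N + g)) < N + g := by rw [hgN]; omega
        have h1 := ih (N + g) hlt (by omega)
        have h2 := card_Fail a t n hS hC hI hD hP ha (N + g) hlt h1
        have hsub : P1 ⊆ Fail a t n (N + g) := by
          intro e he
          rw [hP1, mem_filter] at he
          obtain ⟨q1, q2, q3, q4⟩ := hReq e he.1
          unfold Fail Req
          rw [mem_filter, mem_filter]
          refine ⟨⟨q1, he.2, fun c hc hlt' => q4 c hc (by omega)⟩, fun c hc hce => ?_⟩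
          exact q4 c hc (by rw [hce]; omega)
        have h3 := card_le_card hsub
        rw [hgN] at h2
        have e1 : N + g - aa g - g - 4 = ν - 4 := by omega
        rw [e1] at h2
        by_cases h4 : 4 ≤ ν
        · have e2 : 2 ^ ν = 16 * 2 ^ (ν - 4) := by
            have : ν = (ν - 4) + 4 := by omega
            conv_lhs => rw [this, pow_add]
            ring
          rw [e2]
          omega
        · have e2 : ν - 4 = 0 := by omega
          rw [e2, pow_zero] at h2
          have : P1.card = 0 := by omega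
          rw [this]
          simp
    have hBd : 16 * P2.card ≤ 2 ^ ν := by
      have hlen : ∀ e ∈ P2, e.length < ν - 4 := by
        intro e he
        rw [hP2, mem_filter] at he
        obtain ⟨q1, q2, q3, q4⟩ := hReq e he.1
        obtain ⟨N1, r1, r2, r3⟩ := c3 e.length
        have h1 := r3 N q2
        have h2 : ¬ N < N1 := by
          intro hlt
          apply he.2
          rw [← q3]
          exact c4 e.length N q2 ⟨N1, r1, hlt⟩
        rw [q3] at r2
        omega
      have h1 := card_short hS (ν - 4) P2 hlen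
      by_cases h4 : 4 ≤ ν
      · have e2 : 2 ^ ν = 16 * 2 ^ (ν - 4) := by
          have : ν = (ν - 4) + 4 := by omega
          conv_lhs => rw [this, pow_add]
          ring
        rw [e2]
        omega
      · have e2 : ν - 4 = 0 := by omega
        rw [e2, pow_zero] at h1
        have : P2.card = 0 := by omega
        rw [this]
        simp
    rw [hsum]
    omega

end

theorem lowest (m : ℕ) (hg : 1 ≤ gI m) (N : ℕ) (hN : N ∈ lvls m) :
    ∃ N' ∈ lvls m, N' - aa (gI m) ≤ gI m := by
  induction N using Nat.strong_induction_on with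
  | _ N ih =>
    by_cases h : N - aa (gI m) ≤ gI m
    · exact ⟨N, hN, h⟩
    · have h1 := (mem_lvls m N).mp hN
      refine ih (N - gI m) (by omega) ?_
      rw [mem_lvls]
      refine ⟨by omega, ?_, by omega⟩
      rw [← h1.2.1]
      have : N = (N - gI m) + gI m := by omega
      conv_rhs => rw [this, Nat.add_mod_right]

theorem CAP_proof (h1 : S_STR) (h2 : S_CLS) (h3 : S_INV) (h4 : S_DED) (h5 : S_DSP) : S_CAP := by
  intro a t ha n e he
  by_contra hcon
  push Not at hcon
  have hE : e ∈ EE t n := (mem_EE t n e).mpr he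
  have h2' := h2
  obtain ⟨c1, c2, c3, c4, c5, c6⟩ := h2'
  obtain ⟨N1, hN1, _⟩ := c3 e.length
  have hg : 1 ≤ gI e.length := by
    obtain ⟨i, hi⟩ := (c1 e.length).2.1
    rw [hi]
    exact Nat.one_le_two_pow
  obtain ⟨N, hN, hlow⟩ := lowest e.length hg N1 hN1
  have hgN := ((c2 _ _).mp hN).1
  have hlt : aa (gN N) < N := by rw [hgN]; exact ((c2 _ _).mp hN).2.1
  obtain ⟨B, hB⟩ : ∃ B, ∀ e ∈ EE t n, ∀ N ∈ lvls e.length, N < B := by
    refine ⟨∑ e ∈ EE t n, (e.length + aa (gI e.length) + gI e.length + 5), ?_⟩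
    intro e he N hN
    have h := ((mem_lvls e.length N).mp hN).1
    exact lt_of_lt_of_le h (single_le_sum
      (f := fun e : List Bool => e.length + aa (gI e.length) + gI e.length + 5)
      (fun _ _ => Nat.zero_le _) he)
  have hR := card_Req a t n h1 h2 h3 h4 h5 ha B hB (B - N) N hlt le_rfl
  have hF := card_Fail a t n h1 h2 h3 h4 h5 ha N hlt hR
  have hmem : e ∈ Fail a t n N := by
    unfold Fail Req
    rw [mem_filter, mem_filter]
    exact ⟨⟨hE, hN, fun c hc _ => hcon c hc⟩, fun c hc _ => hcon c hc⟩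
  have hpos : 0 < (Fail a t n N).card := card_pos.mpr ⟨e, hmem⟩
  rw [hgN] at hF
  have e1 : N - aa (gI e.length) - gI e.length - 4 = 0 := by omega
  rw [e1, pow_zero] at hF
  omega

end Pool.Agent.H654R5.PT.CAP
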