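import Pool.Agent.H654R5.PT.Stm

set_option autoImplicit false

/-! Task JOH: few codewords correlate with a given bounded function. -/

namespace Pool.Agent.H654R5.PT.JOH

open Pool.Agent.NPC Finset

theorem sg_sq (b : Bool) : (sg b : ℚ) * (sg b : ℚ) = 1 := by
  cases b <;> simp [sg]

theorem second {ι ζ : Type} [DecidableEq ι] (X : Finset ι) (Z : Finset ζ) (c : ι → ζ → ℚ)
    (M κ : ℚ) (hκ : 0 ≤ κ * M) (h1 : ∀ x ∈ X, ∑ z ∈ Z, c x z * c x z = M)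
    (h2 : ∀ x ∈ X, ∀ y ∈ X, x ≠ y → ∑ z ∈ Z, c x z * c y z ≤ κ * M) :
    ∑ z ∈ Z, (∑ x ∈ X, c x z) ^ 2 ≤ X.card * M + (X.card : ℚ) ^ 2 * (κ * M) := by
  have h3 : ∑ z ∈ Z, (∑ x ∈ X, c x z) ^ 2 = ∑ x ∈ X, ∑ y ∈ X, ∑ z ∈ Z, c x z * c y z := by
    calc ∑ z ∈ Z, (∑ x ∈ X, c x z) ^ 2 = ∑ z ∈ Z, ∑ x ∈ X, ∑ y ∈ X, c x z * c y z := by
          refine sum_congr rfl fun z _ => ?_
          rw [sq, sum_mul_sum]
      _ = _ := by
          rw [sum_comm]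
          refine sum_congr rfl fun x _ => ?_
          rw [sum_comm]
  rw [h3]
  calc _ ≤ ∑ x ∈ X, ∑ y ∈ X, ((if x = y then M else 0) + κ * M) := by
        refine sum_le_sum fun x hx => sum_le_sum fun y hy => ?_
        by_cases hxy : x = y
        · subst hxy
          rw [if_pos rfl, h1 x hx]
          linarith
        · rw [if_neg hxy, zero_add]
          exact h2 x hx y hy hxy
    _ = X.card * M + (X.card : ℚ) ^ 2 * (κ * M) := by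
        simp only [sum_add_distrib, sum_const, nsmul_eq_mul]
        rw [sum_congr rfl fun x hx => by rw [sum_ite_eq, if_pos hx], sum_const, nsmul_eq_mul]
        ring

theorem johnson {ι ζ : Type} [DecidableEq ι] (X : Finset ι) (Z : Finset ζ) (c : ι → ζ → ℚ)
    (ψ : ζ → ℚ) (M κ t : ℚ) (hM : 0 < M) (hκ : 0 ≤ κ) (ht : 0 ≤ t) (hZ : (Z.card : ℚ) = M)
    (hψ : ∀ z, |ψ z| ≤ 1) (h1 : ∀ x ∈ X, ∑ z ∈ Z, c x z * c x z = M)
    (h2 : ∀ x ∈ X, ∀ y ∈ X, x ≠ y → ∑ z ∈ Z, c x z * c y z ≤ κ * M)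
    (hcor : ∀ x ∈ X, M ≤ 4 * t * ∑ z ∈ Z, c x z * ψ z) (hk : 16 * t ^ 2 * κ ≤ 1 / 16) :
    (X.card : ℚ) ≤ 32 * t ^ 2 := by
  set L : ℚ := (X.card : ℚ) with hL
  have hLnn : 0 ≤ L := by rw [hL]; positivity
  have e4 := second X Z c M κ (by positivity) h1 h2
  rw [← hL] at e4
  set S : ζ → ℚ := fun z => ∑ x ∈ X, c x z with hS
  have e1 : L * M ≤ 4 * t * ∑ z ∈ Z, S z * ψ z := by
    have e : L * M = ∑ _x ∈ X, M := by rw [sum_const, nsmul_eq_mul]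
    rw [e]
    calc ∑ _x ∈ X, M ≤ ∑ x ∈ X, 4 * t * ∑ z ∈ Z, c x z * ψ z := sum_le_sum hcor
      _ = 4 * t * ∑ z ∈ Z, S z * ψ z := by
          rw [← mul_sum, sum_comm]
          congr 1
          refine sum_congr rfl fun z _ => ?_
          rw [hS, sum_mul]
  have e2 : (∑ z ∈ Z, S z * ψ z) ^ 2 ≤ (∑ z ∈ Z, S z ^ 2) * ∑ z ∈ Z, ψ z ^ 2 :=
    sum_mul_sq_le_sq_mul_sq _ _ _
  have e3 : ∑ z ∈ Z, ψ z ^ 2 ≤ M := by
    calc ∑ z ∈ Z, ψ z ^ 2 ≤ ∑ z ∈ Z, (1:ℚ) := by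
          refine sum_le_sum fun z _ => ?_
          have := hψ z
          rw [← sq_abs]
          have h0 := abs_nonneg (ψ z)
          nlinarith
      _ = M := by rw [sum_const, nsmul_eq_mul, mul_one, hZ]
  set A : ℚ := ∑ z ∈ Z, S z * ψ z with hA
  have hS2 : 0 ≤ ∑ z ∈ Z, S z ^ 2 := sum_nonneg fun z _ => sq_nonneg _
  have e5 : A ^ 2 ≤ (L * M + L ^ 2 * (κ * M)) * M := by
    refine e2.trans ?_
    exact mul_le_mul e4 e3 (sum_nonneg fun z _ => sq_nonneg _) (hS2.trans e4)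
  have e6 : (L * M) ^ 2 ≤ (4 * t * A) ^ 2 := pow_le_pow_left₀ (by positivity) e1 2
  have e7 : L ^ 2 * M ^ 2 ≤ (16 * t ^ 2 * (L + L ^ 2 * κ)) * M ^ 2 := by
    calc L ^ 2 * M ^ 2 = (L * M) ^ 2 := by ring
      _ ≤ (4 * t * A) ^ 2 := e6
      _ = 16 * t ^ 2 * A ^ 2 := by ring
      _ ≤ 16 * t ^ 2 * ((L * M + L ^ 2 * (κ * M)) * M) :=
          mul_le_mul_of_nonneg_left e5 (by positivity)
      _ = _ := by ring
  have e8 : L ^ 2 ≤ 16 * t ^ 2 * (L + L ^ 2 * κ) :=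
    le_of_mul_le_mul_right e7 (by positivity)
  rcases hLnn.eq_or_lt with h0 | h0
  · rw [← h0]; positivity
  · have h3 : L * L ≤ L * (16 * t ^ 2 * (1 + L * κ)) := by
      calc L * L = L ^ 2 := by ring
        _ ≤ _ := e8
        _ = _ := by ring
    have h4 : L ≤ 16 * t ^ 2 * (1 + L * κ) := le_of_mul_le_mul_left h3 h0
    have h5 : L * (16 * t ^ 2 * κ) ≤ L * (1 / 16) := mul_le_mul_of_nonneg_left hk hLnn
    nlinarith

theorem num (g : ℕ) (t : ℚ) (ht : 0 ≤ t) (h : t ≤ 2 ^ (g + 1)) :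
    16 * t ^ 2 * (1 / 2 ^ (2 * g + 10)) ≤ 1 / 16 := by
  have h3 : t ^ 2 ≤ 2 ^ (2 * g + 2) := by
    calc t ^ 2 ≤ (2 ^ (g + 1)) ^ 2 := pow_le_pow_left₀ ht h 2
      _ = 2 ^ (2 * g + 2) := by rw [← pow_mul]; congr 1; ring
  have h4 : (2:ℚ) ^ (2 * g + 10) = 2 ^ (2 * g + 2) * 256 := by
    rw [show 2 * g + 10 = (2 * g + 2) + 8 by ring, pow_add]; norm_num
  rw [h4, mul_one_div, div_le_div_iff₀ (by positivity) (by norm_num)]
  nlinarith

theorem corr (a k : ℕ) (Z : Finset (List Bool)) (s : List Bool → ℤ)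
    (h : |∑ z ∈ Z, s z| * 2 ^ k ≤ 2 ^ a) :
    ∑ z ∈ Z, (s z : ℚ) ≤ 1 / 2 ^ k * 2 ^ a := by
  have h7 : ((|∑ z ∈ Z, s z| : ℤ) : ℚ) * 2 ^ k ≤ 2 ^ a := by exact_mod_cast h
  have h8 : ∑ z ∈ Z, (s z : ℚ) ≤ ((|∑ z ∈ Z, s z| : ℤ) : ℚ) := by
    push_cast
    exact le_abs_self _
  refine h8.trans ?_
  rw [div_mul_eq_mul_div, one_mul, le_div_iff₀ (by positivity)]
  exact h7

theorem JOH_proof (h1 : S_STR) (h2 : S_COR) : S_JOH := by
  intro g t ht1 ht2 ψ hψ X hX hcor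
  have hcard : ((strs (aa g)).card : ℚ) = 2 ^ aa g := by
    rw [h1.2.2.2.2 (aa g)]; push_cast; rfl
  have hC := h2 g
  generalize strs (aa g) = Z at hcard hcor hC
  have htq : (0:ℚ) ≤ t := by positivity
  have ht2q : (t:ℚ) ≤ 2 ^ (g + 1) := by exact_mod_cast ht2
  have key := johnson X Z (fun x z => (sg (code g x z) : ℚ)) ψ (2 ^ aa g) (1 / 2 ^ (2 * g + 10)) t
    (by positivity) (by positivity) htq hcard hψ
    (fun x _ => by
      rw [sum_congr rfl fun z _ => sg_sq _, sum_const, nsmul_eq_mul, mul_one, hcard])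
    (fun x hx y hy hxy => by
      have h5 := corr (aa g) (2 * g + 10) Z (fun z => sg (code g x z) * sg (code g y z))
        (hC x y (hX x hx) (hX y hy) hxy)
      have h6 : ∑ z ∈ Z, (sg (code g x z) : ℚ) * (sg (code g y z) : ℚ) =
          ∑ z ∈ Z, ((sg (code g x z) * sg (code g y z) : ℤ) : ℚ) :=
        sum_congr rfl fun z _ => by push_cast; rfl
      rw [h6]
      exact h5)
    hcor (num g t htq ht2q)
  have : (X.card : ℚ) ≤ ((32 * t ^ 2 : ℕ) : ℚ) := by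
    push_cast
    exact key
  exact_mod_cast this

end Pool.Agent.H654R5.PT.JOH
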